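import Mathlib

/-! Windows whose two halves are clean and which are not clean. -/

set_option autoImplicit false

namespace Pool.Agent.KS6_32.PSQ

open Finset

section
open Classical

variable (n : ℕ) (Cl : ℕ → ℕ → Prop)

/-- the left ends of the windows of length `m` that are not clean -/
noncomputable def D (m : ℕ) : Finset ℕ := (range (n + 1)).filter fun a => a + m ≤ n ∧ ¬ Cl a (a + m)

/-- the left ends of the windows of length `2 l` that are not clean, with clean halves -/
noncomputable def G (l : ℕ) : Finset ℕ := (range (n + 1)).filter fun a =>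
  a + 2 * l ≤ n ∧ Cl a (a + l) ∧ Cl (a + l) (a + 2 * l) ∧ ¬ Cl a (a + 2 * l)

/-- the left ends of the windows of length `2 l` with a half that is not clean -/
noncomputable def U (l : ℕ) : Finset ℕ := (range (n + 1)).filter fun a =>
  a + 2 * l ≤ n ∧ (¬ Cl a (a + l) ∨ ¬ Cl (a + l) (a + 2 * l))

variable {n Cl}

theorem G_card (hm : ∀ a b a' b', Cl a b → a ≤ a' → b' ≤ b → Cl a' b') (l : ℕ) :
    (G n Cl l).card + (U n Cl l).card = (D n Cl (2 * l)).card := by
  rw [← card_union_of_disjoint]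
  · congr 1
    ext a
    unfold G U D
    simp only [mem_union, mem_filter, mem_range]
    constructor
    · rintro (⟨h1, h2, h3, h4, h5⟩ | ⟨h1, h2, h3⟩)
      · exact ⟨h1, h2, h5⟩
      · refine ⟨h1, h2, fun h => ?_⟩
        rcases h3 with h3 | h3
        · exact h3 (hm _ _ _ _ h le_rfl (by omega))
        · exact h3 (hm _ _ _ _ h (by omega) le_rfl)
    · rintro ⟨h1, h2, h3⟩
      by_cases h4 : Cl a (a + l) ∧ Cl (a + l) (a + 2 * l)
      · exact Or.inl ⟨h1, h2, h4.1, h4.2, h3⟩
      · exact Or.inr ⟨h1, h2, by tauto⟩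
  · rw [disjoint_left]
    intro a h1 h2
    unfold G at h1
    unfold U at h2
    rw [mem_filter] at h1 h2
    tauto

theorem U_card {l : ℕ} (hl : 2 * l ≤ n) : (D n Cl l).card ≤ 2 * (U n Cl l).card + (3 * l - n) := by
  have h1 : D n Cl l ⊆ U n Cl l ∪ ((U n Cl l).image (· + l)) ∪ Ico (n - 2 * l + 1) l := by
    intro a ha
    unfold D at ha
    rw [mem_filter, mem_range] at ha
    obtain ⟨h1, h2, h3⟩ := ha
    rw [mem_union, mem_union]
    by_cases h4 : a + 2 * l ≤ n
    · left; left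
      unfold U
      rw [mem_filter, mem_range]
      exact ⟨h1, h4, Or.inl h3⟩
    · by_cases h5 : l ≤ a
      · left; right
        rw [mem_image]
        refine ⟨a - l, ?_, by omega⟩
        unfold U
        rw [mem_filter, mem_range]
        refine ⟨by omega, by omega, Or.inr ?_⟩
        rw [show a - l + l = a by omega, show a - l + 2 * l = a + l by omega]
        exact h3
      · right
        rw [mem_Ico]
        omega
  have h2 := card_le_card h1
  have h3 := card_union_le (U n Cl l ∪ ((U n Cl l).image (· + l))) (Ico (n - 2 * l + 1) l)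
  have h4 := card_union_le (U n Cl l) ((U n Cl l).image (· + l))
  have h5 : ((U n Cl l).image (· + l)).card ≤ (U n Cl l).card := card_image_le
  rw [Nat.card_Ico] at h3
  omega

theorem D_succ (hm : ∀ a b a' b', Cl a b → a ≤ a' → b' ≤ b → Cl a' b') (m : ℕ) :
    (D n Cl m).card ≤ (D n Cl (m + 1)).card + 1 := by
  have h1 : D n Cl m ⊆ D n Cl (m + 1) ∪ {n - m} := by
    intro a ha
    unfold D at ha
    rw [mem_filter, mem_range] at ha
    obtain ⟨h1, h2, h3⟩ := ha
    rw [mem_union, mem_singleton]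
    by_cases h4 : a + (m + 1) ≤ n
    · left
      unfold D
      rw [mem_filter, mem_range]
      exact ⟨h1, h4, fun h => h3 (hm _ _ _ _ h le_rfl (by omega))⟩
    · right; omega
  have h2 := card_le_card h1
  have h3 := card_union_le (D n Cl (m + 1)) {n - m}
  rw [card_singleton] at h3
  omega

theorem D_le (m : ℕ) : (D n Cl m).card ≤ n + 1 - m := by
  have h1 : D n Cl m ⊆ range (n + 1 - m) := by
    intro a ha
    unfold D at ha
    rw [mem_filter, mem_range] at ha
    rw [mem_range]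
    omega
  have h2 := card_le_card h1
  rwa [card_range] at h2

theorem tri (q L : ℕ) : ∑ l ∈ Icc 1 L, 2 * (l - q) = (L - q) * (L - q + 1) := by
  induction L with
  | zero => simp
  | succ L ih =>
    rw [sum_Icc_succ_top (by omega), ih]
    rcases Nat.lt_or_ge L q with h | h
    · have h1 : L - q = 0 := by omega
      have h2 : L + 1 - q = 0 := by omega
      rw [h1, h2]
    · obtain ⟨k, rfl⟩ := Nat.exists_eq_add_of_le h
      have h1 : q + k - q = k := by omega
      have h2 : q + k + 1 - q = k + 1 := by omega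
      rw [h1, h2]; ring

theorem tri2 (n L k : ℕ) : ∑ m ∈ Icc (L + 1) (L + k), 2 * (n + 1 - m) + (n - (L + k)) * (n - (L + k) + 1) =
    (n - L) * (n - L + 1) := by
  induction k with
  | zero => simp
  | succ k ih =>
    rw [← ih, ← add_assoc L k 1, sum_Icc_succ_top (by omega), add_assoc]
    congr 1
    rcases Nat.lt_or_ge (L + k) n with h | h
    · obtain ⟨r, hr⟩ : ∃ r, n = L + k + 1 + r := ⟨n - (L + k + 1), by omega⟩
      have h1 : n + 1 - (L + k + 1) = r + 1 := by omega
      have h2 : n - (L + k + 1) = r := by omega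
      have h3 : n - (L + k) = r + 1 := by omega
      rw [h1, h2, h3]; ring
    · have h1 : n + 1 - (L + k + 1) = 0 := by omega
      have h2 : n - (L + k + 1) = 0 := by omega
      have h3 : n - (L + k) = 0 := by omega
      rw [h1, h2, h3]

/-- THE COUNT of the windows that are not clean and have clean halves. -/
theorem G_sum (hm : ∀ a b a' b', Cl a b → a ≤ a' → b' ≤ b → Cl a' b') :
    ((∑ l ∈ Icc 1 (n / 2), (G n Cl l).card : ℕ) : ℝ) ≤ (n : ℝ) ^ 2 / 12 + 3 * n + 3 := by
  set L := n / 2 with hL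
  have h1 : ∀ l ∈ Icc 1 L, 2 * (G n Cl l).card + (D n Cl l).card ≤
      (D n Cl (2 * l)).card + (D n Cl (2 * l + 1)).card + 1 + (3 * l - n) := by
    intro l hl
    rw [mem_Icc] at hl
    have e1 := G_card (n := n) hm l
    have e2 := U_card (n := n) (Cl := Cl) (l := l) (by omega)
    have e3 := D_succ (n := n) hm (2 * l)
    omega
  have h2 := sum_le_sum h1
  simp only [sum_add_distrib] at h2
  rw [← mul_sum] at h2
  have h3 : ∀ k : ℕ, ∑ l ∈ Icc 1 k, ((D n Cl (2 * l)).card + (D n Cl (2 * l + 1)).card) + (D n Cl 1).card =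
      ∑ m ∈ Icc 1 (2 * k + 1), (D n Cl m).card := by
    intro k
    induction k with
    | zero => simp
    | succ k ih =>
      rw [sum_Icc_succ_top (by omega), show 2 * (k + 1) + 1 = 2 * k + 1 + 1 + 1 by ring, sum_Icc_succ_top (by omega),
        sum_Icc_succ_top (by omega), ← ih]
      rw [show 2 * (k + 1) = 2 * k + 1 + 1 by ring]
      ring
  have h4 := h3 L
  have h5 : ∑ m ∈ Icc 1 (2 * L + 1), (D n Cl m).card = ∑ l ∈ Icc 1 L, (D n Cl l).card +
      ∑ m ∈ Icc (L + 1) (2 * L + 1), (D n Cl m).card := by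
    have : ∀ j : ℕ, ∑ m ∈ Icc 1 (L + j), (D n Cl m).card = ∑ l ∈ Icc 1 L, (D n Cl l).card +
        ∑ m ∈ Icc (L + 1) (L + j), (D n Cl m).card := by
      intro j
      induction j with
      | zero => simp
      | succ j ih =>
        rw [← add_assoc, sum_Icc_succ_top (by omega), ih, sum_Icc_succ_top (a := L + 1) (by omega)]
        ring
    have := this (L + 1)
    rwa [show L + (L + 1) = 2 * L + 1 by ring] at this
  rw [sum_add_distrib] at h4
  have h6 : ∑ m ∈ Icc (L + 1) (2 * L + 1), (D n Cl m).card ≤ ∑ m ∈ Icc (L + 1) (2 * L + 1), (n + 1 - m) :=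
    sum_le_sum fun m _ => D_le m
  have h7 := tri2 n L (L + 1)
  rw [show L + (L + 1) = 2 * L + 1 by ring, ← mul_sum] at h7
  have h8 : ∑ l ∈ Icc 1 L, 1 = L := by simp
  -- the truncated sum
  have h9 : ∑ l ∈ Icc 1 L, (3 * l - n) ≤ ∑ l ∈ Icc 1 L, 3 * (l - n / 3) :=
    sum_le_sum fun l _ => by omega
  rw [← mul_sum] at h9
  have h10 := tri (n / 3) L
  rw [← mul_sum] at h10
  have h11 : 4 * ∑ l ∈ Icc 1 L, (G n Cl l).card ≤ (n - L) * (n - L + 1) + 2 * L + 3 * ((L - n / 3) * (L - n / 3 + 1)) := by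
    rw [h8] at h2
    omega
  have g1 : (n : ℝ) - L ≤ n / 2 + 1 / 2 := by
    have : n ≤ 2 * L + 1 := by omega
    have : (n : ℝ) ≤ 2 * L + 1 := by exact_mod_cast this
    linarith
  have g2 : (L : ℝ) ≤ n / 2 := by
    have : 2 * L ≤ n := by omega
    have : 2 * (L : ℝ) ≤ n := by exact_mod_cast this
    linarith
  have g3 : (((L - n / 3 : ℕ)) : ℝ) ≤ n / 6 + 2 / 3 := by
    have h : 6 * (L - n / 3) ≤ n + 4 := by omega
    have : 6 * (((L - n / 3 : ℕ)) : ℝ) ≤ n + 4 := by exact_mod_cast h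
    linarith
  have g0 : (0 : ℝ) ≤ ((L - n / 3 : ℕ) : ℝ) := Nat.cast_nonneg _
  have g4 : (((n - L : ℕ)) : ℝ) = n - L := by rw [Nat.cast_sub (by omega)]
  have g5 : 4 * ((∑ l ∈ Icc 1 L, (G n Cl l).card : ℕ) : ℝ) ≤ (n - L) * (n - L + 1) + 2 * L +
      3 * (((L - n / 3 : ℕ) : ℝ) * (((L - n / 3 : ℕ) : ℝ) + 1)) := by
    rw [← g4]
    exact_mod_cast h11
  have gn : (0 : ℝ) ≤ n := Nat.cast_nonneg n
  have gL : (0 : ℝ) ≤ (n : ℝ) - L := by linarith
  have g6 : ((n : ℝ) - L) * (n - L + 1) ≤ (n / 2 + 1 / 2) * (n / 2 + 3 / 2) := by nlinarith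
  have g7 : ((L - n / 3 : ℕ) : ℝ) * (((L - n / 3 : ℕ) : ℝ) + 1) ≤ (n / 6 + 2 / 3) * (n / 6 + 5 / 3) := by nlinarith
  nlinarith

end

end Pool.Agent.KS6_32.PSQ
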