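import Pool.Agent.KS6_32.PSQ.Upper

/-! Strings with many classes of parameterized squares. -/

set_option autoImplicit false

namespace Pool.Agent.KS6_32.PSQ

open Finset

theorem finite_infix {α : Type} (s : List α) (P : List α → Prop) : {w | w <:+: s ∧ P w}.Finite := by
  have : {w | w <:+: s}.Finite := by
    refine (List.finite_toSet (s.sublists)).subset ?_
    intro w hw
    simpa using List.IsInfix.sublist hw
  exact this.subset fun w hw => hw.1

theorem ps'_le_ps {α : Type} (s : List α) : PS' s ≤ PS s := by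
  refine Set.ncard_le_ncard (Set.image_mono ?_) ((finite_infix s _).image _)
  rintro w ⟨h1, h2, x, y, h3, h4, -⟩
  exact ⟨h1, h2, x, y, h3, h4⟩

/-- Two duplicate-free strings of the same length are parameterized equivalent. -/
theorem pequiv_of_nodup {α : Type} {x y : List α} (hx : x.Nodup) (hy : y.Nodup)
    (h : x.length = y.length) : PEquiv x y := by
  obtain ⟨σ, hσ⟩ := Equiv.Perm.exists_extending_pair (fun i : Fin x.length => x.get i)
    (fun i : Fin x.length => y.get (i.cast h)) (List.nodup_iff_injective_get.1 hx)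
    (fun a b hab => by
      have := List.nodup_iff_injective_get.1 hy hab
      simpa [Fin.ext_iff] using this)
  refine ⟨σ, List.ext_getElem (by simpa using h) ?_⟩
  intro i h1 h2
  have := hσ ⟨i, by simpa using h1⟩
  simpa using this

/-- the letter at the position `p` -/
def ell (D m p : ℕ) : ℕ := if D ≤ p ∧ (p - D) % (2 * (m + 1)) = 0 then 2 * m * ((p - D) / (2 * (m + 1))) else p

theorem ell_le (D m p : ℕ) : ell D m p ≤ p := by
  unfold ell
  split_ifs with h
  · have h1 : 2 * (m + 1) * ((p - D) / (2 * (m + 1))) ≤ p - D := Nat.mul_div_le _ _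
    have h2 : 2 * m * ((p - D) / (2 * (m + 1))) ≤ 2 * (m + 1) * ((p - D) / (2 * (m + 1))) :=
      Nat.mul_le_mul_right _ (by omega)
    omega
  · exact le_rfl

/-- marked or not -/
theorem ell_cases (D m p : ℕ) : (∃ j, p = D + 2 * (m + 1) * j ∧ ell D m p = 2 * m * j) ∨ ell D m p = p := by
  unfold ell
  split_ifs with h
  · left
    refine ⟨(p - D) / (2 * (m + 1)), ?_, rfl⟩
    have h1 := Nat.div_add_mod (p - D) (2 * (m + 1))
    omega
  · right; rfl

theorem ell_eq {D m p q : ℕ} (hm : 1 ≤ m) (hD : 1 ≤ D) (hpq : p < q) (h : ell D m p = ell D m q) :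
    ∃ j, p = 2 * m * j ∧ q = D + 2 * (m + 1) * j := by
  have hp := ell_le D m p
  rcases ell_cases D m q with ⟨j, h1, h2⟩ | h1
  · rcases ell_cases D m p with ⟨i, h3, h4⟩ | h3
    · exfalso
      rw [h4, h2] at h
      have : i = j := Nat.eq_of_mul_eq_mul_left (by omega) h
      rw [this] at h3
      omega
    · exact ⟨j, by omega, h1⟩
  · omega

theorem ell_mark (D m j : ℕ) : ell D m (D + 2 * (m + 1) * j) = 2 * m * j := by
  unfold ell
  have e : D + 2 * (m + 1) * j - D = 2 * (m + 1) * j := by omega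
  rw [if_pos ⟨by omega, by rw [e]; exact Nat.mul_mod_right _ _⟩, e, Nat.mul_div_cancel_left _ (by omega)]

theorem ell_even {D m j : ℕ} (hD : D % 2 = 1) : ell D m (2 * m * j) = 2 * m * j := by
  rcases ell_cases D m (2 * m * j) with ⟨i, h1, h2⟩ | h1
  · exfalso
    have e1 : 2 * m * j = 2 * (m * j) := by ring
    have e2 : 2 * (m + 1) * i = 2 * ((m + 1) * i) := by ring
    omega
  · exact h1

/-- the string -/
def str (n D m : ℕ) : List (Fin n) := List.ofFn fun p : Fin n => ⟨ell D m p, (ell_le D m p).trans_lt p.2⟩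

theorem str_length (n D m : ℕ) : (str n D m).length = n := by simp [str]

theorem str_get? {n D m i : ℕ} (h : i < n) : (str n D m)[i]? = some ⟨ell D m i, (ell_le D m i).trans_lt h⟩ := by
  unfold str
  rw [List.getElem?_ofFn]
  simp [h]

theorem win_length' {n D m i k : ℕ} (h : i + k ≤ n) : (win (str n D m) i k).length = k := by
  simp only [win, List.length_take, List.length_drop, str_length]
  omega

theorem win_inj {n D m i k t u : ℕ} (h : i + k ≤ n) (ht : t < k) (hu : u < k) :
    (win (str n D m) i k)[t]? = (win (str n D m) i k)[u]? ↔ ell D m (i + t) = ell D m (i + u) := by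
  rw [win_get?, win_get?, if_pos ht, if_pos hu, str_get? (by omega), str_get? (by omega)]
  simp

theorem win_nodup {n D m i k : ℕ} (hm : 1 ≤ m) (hD : 1 ≤ D) (h : i + k ≤ n) (hk : k ≤ D) : (win (str n D m) i k).Nodup := by
  rw [List.nodup_iff_getElem?_ne_getElem?]
  intro t u htu hu heq
  rw [win_length' h] at hu
  rw [win_inj h (by omega) hu] at heq
  obtain ⟨j, h1, h2⟩ := ell_eq hm hD (by omega) heq
  have e1 : 2 * (m + 1) * j = 2 * m * j + 2 * j := by ring
  omega

theorem win_split {α : Type} (s : List α) (i k : ℕ) : win s i (2 * k) = win s i k ++ win s (i + k) k := by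
  rw [two_mul, win, List.take_add, List.drop_drop]
  rfl

theorem win_infix {α : Type} (s : List α) (i m : ℕ) : win s i m <:+: s :=
  (List.take_prefix _ _).isInfix.trans (List.drop_suffix _ _).isInfix

theorem win_sq {n D m a l : ℕ} (hm : 1 ≤ m) (hD : 1 ≤ D) (hl : 2 ≤ l) (hlD : l ≤ D) (h : a + 2 * l ≤ n) :
    IsPSquare' (win (str n D m) a (2 * l)) := by
  refine ⟨?_, win (str n D m) a l, win (str n D m) (a + l) l, win_split _ a l, ?_, ?_⟩
  · intro h0
    have := win_length' (n := n) (D := D) (m := m) (i := a) (k := 2 * l) h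
    rw [h0] at this
    simp at this
    omega
  · refine pequiv_of_nodup (win_nodup hm hD (by omega) hlD) (win_nodup hm hD (by omega) hlD) ?_
    rw [win_length' (by omega), win_length' (by omega)]
  · intro heq
    have hz : ∀ t, t < l → ell D m (a + t) = ell D m (a + l + t) := by
      intro t ht
      have h1 : (win (str n D m) a l)[t]? = (win (str n D m) (a + l) l)[t]? := by rw [heq]
      rw [win_get?, win_get?, if_pos ht, if_pos ht, str_get? (by omega), str_get? (by omega)] at h1
      simpa using h1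
    obtain ⟨j, h1, h2⟩ := ell_eq hm hD (by omega : a + 0 < a + l + 0) (hz 0 (by omega))
    obtain ⟨i, h3, h4⟩ := ell_eq hm hD (by omega : a + 1 < a + l + 1) (hz 1 (by omega))
    have e1 : 2 * (m + 1) * j = 2 * m * j + 2 * j := by ring
    have e2 : 2 * (m + 1) * i = 2 * m * i + 2 * i := by ring
    have e3 : 2 * m * j = 2 * (m * j) := by ring
    have e4 : 2 * m * i = 2 * (m * i) := by ring
    omega

theorem win_injOn {n D m a l a' l' : ℕ} (hm : 1 ≤ m) (hD : D % 2 = 1) (h : a + 2 * l ≤ n) (h' : a' + 2 * l' ≤ n)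
    (hl : D + 2 * m + 2 * (n / (2 * m)) + 2 ≤ 2 * l)
    (he : PEquiv (win (str n D m) a (2 * l)) (win (str n D m) a' (2 * l'))) : l = l' ∧ a = a' := by
  have e1 := win_length' (n := n) (D := D) (m := m) (i := a) (k := 2 * l) h
  have e2 := win_length' (n := n) (D := D) (m := m) (i := a') (k := 2 * l') h'
  obtain ⟨f, hf⟩ := he
  have hk : l = l' := by
    have := congrArg List.length hf
    rw [List.length_map, e1, e2] at this
    omega
  subst hk
  refine ⟨rfl, ?_⟩
  -- the marked pair
  obtain ⟨j, hj1, hj2, hj3⟩ : ∃ j, a ≤ 2 * m * j ∧ 2 * m * j ≤ a + 2 * m - 1 ∧ j ≤ n / (2 * m) + 1 := by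
    refine ⟨(a + 2 * m - 1) / (2 * m), ?_, Nat.mul_div_le _ _, ?_⟩
    · have h1 := Nat.div_add_mod (a + 2 * m - 1) (2 * m)
      have h2 := Nat.mod_lt (a + 2 * m - 1) (show 0 < 2 * m by omega)
      omega
    · calc (a + 2 * m - 1) / (2 * m) ≤ (n + 2 * m) / (2 * m) := Nat.div_le_div_right (by omega)
        _ = n / (2 * m) + 1 := Nat.add_div_right _ (by omega)
  have e3 : 2 * (m + 1) * j = 2 * m * j + 2 * j := by ring
  set t := 2 * m * j - a with ht
  set u := D + 2 * (m + 1) * j - a with hu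
  have htu : t < 2 * l := by omega
  have huu : u < 2 * l := by omega
  have h1 : (win (str n D m) a (2 * l))[t]? = (win (str n D m) a (2 * l))[u]? := by
    rw [win_inj h htu huu, show a + t = 2 * m * j by omega, show a + u = D + 2 * (m + 1) * j by omega, ell_even hD, ell_mark]
  have h2 : (win (str n D m) a' (2 * l))[t]? = (win (str n D m) a' (2 * l))[u]? := by
    rw [← hf, List.getElem?_map, List.getElem?_map, h1]
  rw [win_inj h' htu huu] at h2
  obtain ⟨i, h3, h4⟩ := ell_eq hm (by omega) (by omega : a' + t < a' + u) h2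
  have e4 : 2 * (m + 1) * i = 2 * m * i + 2 * i := by ring
  have : i = j := by omega
  subst this
  omega

/-- the windows which are counted -/
def idx (n D L : ℕ) : Finset (Σ _ : ℕ, ℕ) := (Ioc L D).sigma fun l => range (n + 1 - 2 * l)

theorem idx_card {n D L : ℕ} (hL : L ≤ D) (hD : 2 * D ≤ n) : ((idx n D L).card : ℝ) = ((D : ℝ) - L) * (n - D - L) := by
  rw [idx, card_sigma]
  simp only [card_range]
  obtain ⟨k, rfl⟩ := Nat.exists_eq_add_of_le hL
  clear hL
  induction k with
  | zero => simp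
  | succ k ih =>
    rw [← Nat.add_assoc, sum_Ioc_succ_top (by omega)]
    push_cast
    have h1 := ih (by omega)
    push_cast at h1
    rw [h1]
    have h2 : ((n + 1 - 2 * (L + k + 1) : ℕ) : ℝ) = n + 1 - 2 * (L + k + 1) := by
      rw [Nat.cast_sub (by omega)]; push_cast; ring
    rw [h2]
    ring

theorem lower_aux {n D m L : ℕ} (hm : 1 ≤ m) (hD : D % 2 = 1) (hDn : 2 * D ≤ n) (hLD : L ≤ D) (hL1 : 1 ≤ L)
    (hL : D + 2 * m + 2 * (n / (2 * m)) ≤ 2 * L) : ((D : ℝ) - L) * (n - D - L) ≤ PS' (str n D m) := by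
  rw [← idx_card hLD hDn]
  have h : (idx n D L).card ≤ PS' (str n D m) := by
    rw [← Set.ncard_coe_finset]
    refine Set.ncard_le_ncard_of_injOn
      (fun p => Quotient.mk (classes (Fin n)) (win (str n D m) p.2 (2 * p.1))) ?_ ?_ ((finite_infix _ _).image _)
    · rintro ⟨l, a⟩ hp
      rw [mem_coe, idx, mem_sigma, mem_Ioc, mem_range] at hp
      simp only at hp
      exact ⟨_, ⟨win_infix _ _ _, win_sq hm (by omega) (by omega) hp.1.2 (by dsimp only; omega)⟩, rfl⟩
    · rintro ⟨l, a⟩ hp ⟨l', a'⟩ hp' he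
      rw [mem_coe, idx, mem_sigma, mem_Ioc, mem_range] at hp hp'
      simp only at hp hp' he
      obtain ⟨rfl, rfl⟩ := win_injOn hm hD (by omega) (by omega) (by omega) (Quotient.exact he)
      rfl
  exact_mod_cast h

/-- THE LOWER BOUND. -/
theorem lower (n : ℕ) : ∃ s : List (Fin n), s.length = n ∧ (n : ℝ) ^ 2 / 12 - 3 * (n * √ n) ≤ PS' s := by
  rcases Nat.lt_or_ge n 3 with hn | hn
  · refine ⟨str n 1 1, str_length _ _ _, ?_⟩
    have h0 : (0 : ℝ) ≤ PS' (str n 1 1) := Nat.cast_nonneg _
    have h1 : (0 : ℝ) ≤ n := Nat.cast_nonneg n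
    have h2 : (n : ℝ) ≤ 3 := by exact_mod_cast hn.le
    rcases Nat.eq_zero_or_pos n with h3 | h3
    · subst h3; simp
    · have h4 : (1 : ℝ) ≤ n := by exact_mod_cast h3
      have h5 : 1 ≤ √ (n : ℝ) := Real.one_le_sqrt.2 h4
      nlinarith
  · set m := Nat.sqrt n + 1 with hm
    set D := 2 * ((n - 3) / 6) + 1 with hD
    set L := (D + 1) / 2 + m + n / (2 * m) with hL
    refine ⟨str n D m, str_length _ _ _, ?_⟩
    have hps : (0 : ℝ) ≤ PS' (str n D m) := Nat.cast_nonneg _
    have hnR : (3 : ℝ) ≤ n := by exact_mod_cast hn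
    set r := √ (n : ℝ) with hr
    have hr2 : r ^ 2 = n := Real.sq_sqrt (by linarith)
    have hr0 : 0 ≤ r := Real.sqrt_nonneg _
    have hr1 : 1 ≤ r := Real.one_le_sqrt.2 (by linarith)
    -- size of `m`
    have hm1 : (m : ℝ) ≤ r + 1 := by
      have : ((Nat.sqrt n : ℕ) : ℝ) ≤ r := Real.nat_sqrt_le_real_sqrt
      rw [hm]; push_cast; linarith
    have hmn : n < m * m := Nat.lt_succ_sqrt n
    have hq : 2 * (n / (2 * m)) ≤ m := by
      have h1 : n / (2 * m) * (2 * m) ≤ n := Nat.div_mul_le_self _ _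
      by_contra hcon
      push Not at hcon
      have h2 : m * m < 2 * (n / (2 * m)) * m := Nat.mul_lt_mul_of_pos_right hcon (by omega)
      have h3 : 2 * (n / (2 * m)) * m = n / (2 * m) * (2 * m) := by ring
      omega
    have hqR : ((n / (2 * m) : ℕ) : ℝ) ≤ m / 2 := by
      have : 2 * ((n / (2 * m) : ℕ) : ℝ) ≤ m := by exact_mod_cast hq
      linarith
    have hD1 : (n : ℝ) / 3 - 5 / 3 ≤ D := by
      have : n ≤ 3 * D + 5 := by omega
      have : (n : ℝ) ≤ 3 * D + 5 := by exact_mod_cast this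
      linarith
    have hD2 : (D : ℝ) ≤ n / 3 := by
      have : 3 * D ≤ n := by omega
      have : 3 * (D : ℝ) ≤ n := by exact_mod_cast this
      linarith
    have hLR : (L : ℝ) ≤ D / 2 + 2 + 3 / 2 * r := by
      have h1 : 2 * ((D + 1) / 2) ≤ D + 1 := by omega
      have h2 : 2 * (((D + 1) / 2 : ℕ) : ℝ) ≤ D + 1 := by exact_mod_cast h1
      rw [hL]; push_cast
      linarith
    rcases le_or_gt (n / 6 - 3 - 3 / 2 * r) 0 with hneg | hpos
    · nlinarith
    · have hLD : L ≤ D := by
        have : (L : ℝ) ≤ D := by linarith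
        exact_mod_cast this
      have h1 := lower_aux (n := n) (D := D) (m := m) (L := L) (by omega) (by omega) (by omega) hLD (by omega) (by omega)
      refine le_trans ?_ h1
      have h2 : n / 6 - 3 - 3 / 2 * r ≤ (D : ℝ) - L := by linarith
      have h3 : n / 2 - 2 - 3 / 2 * r ≤ (n : ℝ) - D - L := by linarith
      have h4 : 0 ≤ n / 2 - 2 - 3 / 2 * r := by linarith
      calc (n : ℝ) ^ 2 / 12 - 3 * (n * r) ≤ (n / 6 - 3 - 3 / 2 * r) * (n / 2 - 2 - 3 / 2 * r) := by nlinarith
        _ ≤ ((D : ℝ) - L) * (n - D - L) := mul_le_mul h2 h3 h4 (by linarith)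

end Pool.Agent.KS6_32.PSQ
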