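import Pool.Agent.KS6_32.PSQ.Comb

/-! The upper bound for the number of classes of parameterized squares. -/

set_option autoImplicit false

namespace Pool.Agent.KS6_32.PSQ

open Finset

/-- Parameterized equivalence `x ≈ y` of two strings over the alphabet `α`: some bijection of the
alphabet carries `x` to `y` letter by letter. -/
def PEquiv {α : Type} (x y : List α) : Prop := ∃ f : Equiv.Perm α, x.map f = y

theorem pequiv_equivalence (α : Type) : Equivalence (@PEquiv α) where
  refl x := ⟨1, by simp⟩
  symm := by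
    rintro x y ⟨f, rfl⟩
    exact ⟨f⁻¹, by simp [List.map_map, Function.comp_def]⟩
  trans := by
    rintro x y z ⟨f, rfl⟩ ⟨g, rfl⟩
    exact ⟨g * f, by simp [List.map_map, Function.comp_def]⟩

/-- The strings over `α` up to parameterized equivalence. -/
def classes (α : Type) : Setoid (List α) := ⟨PEquiv, pequiv_equivalence α⟩

/-- `w` is a parameterized square: non-empty and of the form `x y` with `x ≈ y`. -/
def IsPSquare {α : Type} (w : List α) : Prop :=
  w ≠ [] ∧ ∃ x y : List α, w = x ++ y ∧ PEquiv x y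

/-- `w` is a parameterized square but not an ordinary square. -/
def IsPSquare' {α : Type} (w : List α) : Prop :=
  w ≠ [] ∧ ∃ x y : List α, w = x ++ y ∧ PEquiv x y ∧ x ≠ y

/-- `PS(s)`: the number of classes of the parameterized squares that are factors of `s`. -/
noncomputable def PS {α : Type} (s : List α) : ℕ :=
  Set.ncard ((fun w => Quotient.mk (classes α) w) '' {w | w <:+: s ∧ IsPSquare w})

/-- `PS'(s)`: the same count with the ordinary squares excluded. -/
noncomputable def PS' {α : Type} (s : List α) : ℕ :=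
  Set.ncard ((fun w => Quotient.mk (classes α) w) '' {w | w <:+: s ∧ IsPSquare' w})

/-! ### Windows -/

variable {α : Type} (s : List α)

/-- the windows of length `m` at `i` and at `j` are equivalent -/
def Weq (i j m : ℕ) : Prop := ∃ e : Equiv.Perm α, ∀ t < m, (s[i + t]?).map e = s[j + t]?

/-- the window of length `m` at `i` -/
def win (i m : ℕ) : List α := (s.drop i).take m

variable {s}

theorem win_get? (i m t : ℕ) : (win s i m)[t]? = if t < m then s[i + t]? else none := by
  unfold win
  rw [List.getElem?_take]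
  split_ifs with h
  · rw [List.getElem?_drop]
  · rfl

theorem win_pequiv {i j m : ℕ} : PEquiv (win s i m) (win s j m) ↔ Weq s i j m := by
  constructor
  · rintro ⟨e, he⟩
    refine ⟨e, fun t ht => ?_⟩
    have h1 : ((win s i m).map e)[t]? = (win s j m)[t]? := by rw [he]
    rw [List.getElem?_map, win_get?, win_get?, if_pos ht, if_pos ht] at h1
    exact h1
  · rintro ⟨e, he⟩
    refine ⟨e, List.ext_getElem? fun t => ?_⟩
    rw [List.getElem?_map, win_get?, win_get?]
    split_ifs with h
    · exact he t h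
    · rfl

theorem Weq.symm {i j m : ℕ} (h : Weq s i j m) : Weq s j i m := by
  obtain ⟨e, he⟩ := h
  refine ⟨e⁻¹, fun t ht => ?_⟩
  rw [← he t ht]
  cases s[i + t]? <;> simp

theorem Weq.trans {i j k m : ℕ} (h : Weq s i j m) (h' : Weq s j k m) : Weq s i k m := by
  obtain ⟨e, he⟩ := h
  obtain ⟨f, hf⟩ := h'
  refine ⟨f * e, fun t ht => ?_⟩
  rw [← hf t ht, ← he t ht]
  cases s[i + t]? <;> simp

theorem Weq.shift {i j m : ℕ} (h : Weq s i j m) {r k : ℕ} (hr : r + k ≤ m) : Weq s (i + r) (j + r) k := by
  obtain ⟨e, he⟩ := h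
  refine ⟨e, fun t ht => ?_⟩
  rw [add_assoc, add_assoc]
  exact he (r + t) (by omega)

theorem Weq.mono {i j m : ℕ} (h : Weq s i j m) {k : ℕ} (hr : k ≤ m) : Weq s i j k := by
  have := h.shift (r := 0) (k := k) (by omega)
  simpa using this

/-- the window `[a, b)` has the period `δ` up to a bijection of the alphabet -/
def Pd (s : List α) (a b δ : ℕ) : Prop := Weq s a (a + δ) (b - a - δ)

/-- the window `[a, b)` has a small period up to a bijection of the alphabet -/
def Clean (s : List α) (K a b : ℕ) : Prop := ∃ δ, 1 ≤ δ ∧ δ ≤ K ∧ Pd s a b δ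

theorem Pd.mono {a b a' b' δ : ℕ} (h : Pd s a b δ) (ha : a ≤ a') (hb : b' ≤ b) : Pd s a' b' δ := by
  unfold Pd at *
  rcases Nat.lt_or_ge (b' - a') δ with h1 | h1
  · have : b' - a' - δ = 0 := by omega
    rw [this]
    exact ⟨1, fun t ht => absurd ht (by omega)⟩
  · rcases Nat.lt_or_ge b' a' with h3 | h3
    · have : b' - a' - δ = 0 := by omega
      rw [this]
      exact ⟨1, fun t ht => absurd ht (by omega)⟩
    have h2 := h.shift (r := a' - a) (k := b' - a' - δ) (by omega)
    rw [show a + (a' - a) = a' by omega, show a + δ + (a' - a) = a' + δ by omega] at h2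
    exact h2

theorem Clean.mono {K : ℕ} (a b a' b' : ℕ) (h : Clean s K a b) (ha : a ≤ a') (hb : b' ≤ b) : Clean s K a' b' := by
  obtain ⟨δ, h1, h2, h3⟩ := h
  exact ⟨δ, h1, h2, h3.mono ha hb⟩

section
open Classical

/-- the last occurrences of the classes of parameterized squares -/
noncomputable def T (s : List α) : Finset (ℕ × ℕ) :=
  (range (s.length + 1) ×ˢ range (s.length + 1)).filter fun p => 1 ≤ p.2 ∧ p.1 + 2 * p.2 ≤ s.length ∧
    Weq s p.1 (p.1 + p.2) p.2 ∧ ∀ a', p.1 < a' → a' + 2 * p.2 ≤ s.length → ¬ Weq s p.1 a' (2 * p.2)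

theorem mem_T {a l : ℕ} : (a, l) ∈ T s ↔ 1 ≤ l ∧ a + 2 * l ≤ s.length ∧ Weq s a (a + l) l ∧
    ∀ a', a < a' → a' + 2 * l ≤ s.length → ¬ Weq s a a' (2 * l) := by
  unfold T
  rw [mem_filter, mem_product, mem_range, mem_range]
  constructor
  · rintro ⟨-, h⟩; exact h
  · intro h
    exact ⟨⟨by omega, by omega⟩, h⟩

theorem PS_le : PS s ≤ (T s).card := by
  have hsub : ((fun w => Quotient.mk (classes α) w) '' {w | w <:+: s ∧ IsPSquare w}) ⊆
      ((T s).image fun p => Quotient.mk (classes α) (win s p.1 (2 * p.2)) : Finset _) := by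
    rintro c ⟨w, ⟨hw, hw0, x, y, hxy, hp⟩, rfl⟩
    obtain ⟨u, v, huv⟩ := hw
    have hlen : x.length = y.length := by
      obtain ⟨f, hf⟩ := hp
      rw [← hf, List.length_map]
    have hx0 : 1 ≤ x.length := by
      rcases Nat.eq_zero_or_pos x.length with h | h
      · exfalso
        apply hw0
        have e1 : x = [] := List.length_eq_zero_iff.1 h
        have e2 : y = [] := List.length_eq_zero_iff.1 (by rw [← hlen, h])
        rw [hxy, e1, e2]
        rfl
      · exact h
    have hn : u.length + 2 * x.length + v.length = s.length := by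
      rw [← huv, hxy]
      simp only [List.length_append]
      omega
    set a := u.length with ha
    set l := x.length with hl
    have hwin : win s a (2 * l) = w := by
      unfold win
      rw [← huv, List.append_assoc, ha, List.drop_left, hxy, List.take_append_of_le_length (by
        rw [List.length_append]; omega), List.take_of_length_le (by rw [List.length_append]; omega)]
    have hsq : Weq s a (a + l) l := by
      rw [← win_pequiv]
      have e1 : win s a l = x := by
        have : win s a l = (win s a (2 * l)).take l := by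
          unfold win; rw [List.take_take]; congr 1; omega
        rw [this, hwin, hxy, List.take_left]
      have e2 : win s (a + l) l = y := by
        have : win s (a + l) l = (win s a (2 * l)).drop l := by
          unfold win
          rw [List.drop_take, List.drop_drop]
          congr 1
          omega
        rw [this, hwin, hxy, List.drop_left]
      rw [e1, e2]
      exact hp
    -- the last occurrence
    obtain ⟨b, hb, hmax⟩ := ((range (s.length + 1)).filter fun b => b + 2 * l ≤ s.length ∧ Weq s a b (2 * l)).exists_max_image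
      id ⟨a, by
        rw [mem_filter, mem_range]
        exact ⟨by omega, by omega, 1, fun t _ => by simp⟩⟩
    rw [mem_filter, mem_range] at hb
    obtain ⟨hb0, hb1, hb2⟩ := hb
    rw [coe_image]
    refine ⟨(b, l), ?_, ?_⟩
    · rw [mem_coe, mem_T]
      refine ⟨hx0, hb1, ?_, ?_⟩
      · have h1 := (hb2.mono (k := l) (by omega)).symm
        have h2 := hb2.shift (r := l) (k := l) (by omega)
        exact (h1.trans hsq).trans h2
      · intro a' ha' ha'n hcon
        have := hmax a' (by
          rw [mem_filter, mem_range]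
          exact ⟨by omega, ha'n, hb2.trans hcon⟩)
        simp only [id] at this
        omega
    · rw [← hwin]
      apply Quotient.sound
      show PEquiv _ _
      rw [win_pequiv]
      exact hb2.symm
  unfold PS
  calc Set.ncard _ ≤ Set.ncard (((T s).image fun p => Quotient.mk (classes α) (win s p.1 (2 * p.2)) : Finset _) :
        Set (Quotient (classes α))) := Set.ncard_le_ncard hsub (Finset.finite_toSet _)
    _ = ((T s).image fun p => Quotient.mk (classes α) (win s p.1 (2 * p.2))).card := Set.ncard_coe_finset _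
    _ ≤ (T s).card := card_image_le

/-! ### The three parts -/

/-- separated sets -/
theorem sep_card {S : Finset ℕ} {M K : ℕ} (hK : 1 ≤ K) (hM : ∀ x ∈ S, x ≤ M) (h : ∀ x ∈ S, ∀ y ∈ S, x < y → x + K < y) :
    S.card ≤ M / K + 1 := by
  have h1 : S.card = (S.image (· / K)).card := by
    rw [card_image_of_injOn]
    intro x hx y hy hxy
    rw [mem_coe] at hx hy
    have key : ∀ x ∈ S, ∀ y ∈ S, x < y → x / K < y / K := by
      intro x hx y hy hlt
      have h2 := h x hx y hy hlt
      have h3 : (x + K) / K ≤ y / K := Nat.div_le_div_right (by omega)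
      rw [Nat.add_div_right _ hK] at h3
      omega
    have hxy' : x / K = y / K := hxy
    rcases lt_trichotomy x y with h2 | h2 | h2
    · have := key x hx y hy h2; omega
    · exact h2
    · have := key y hy x hx h2; omega
  rw [h1]
  calc (S.image (· / K)).card ≤ (range (M / K + 1)).card := card_le_card fun z hz => by
        rw [mem_image] at hz
        obtain ⟨x, hx, rfl⟩ := hz
        rw [mem_range]
        exact Nat.lt_succ_of_le (Nat.div_le_div_right (hM x hx))
    _ = M / K + 1 := card_range _

/-- sets of small diameter -/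
theorem diam_card {S : Finset ℕ} {δ : ℕ} (h : ∀ x ∈ S, ∀ y ∈ S, y < x + δ) : S.card ≤ δ := by
  rcases S.eq_empty_or_nonempty with h0 | h0
  · rw [h0]; simp
  · have h1 : S ⊆ Ico (S.min' h0) (S.min' h0 + δ) := by
      intro y hy
      rw [mem_Ico]
      exact ⟨S.min'_le y hy, h _ (S.min'_mem h0) y hy⟩
    have := card_le_card h1
    rwa [Nat.card_Ico, Nat.add_sub_cancel_left] at this

theorem fib_card (A : Finset (ℕ × ℕ)) {n B : ℕ} (h0 : ∀ p ∈ A, p.1 ≤ n) (h : ∀ a, (A.filter fun p => p.1 = a).card ≤ B) :
    A.card ≤ (n + 1) * B := by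
  rw [card_eq_sum_card_fiberwise (f := Prod.fst) (t := range (n + 1)) (fun p hp => by
    rw [mem_coe, mem_range]; have := h0 p hp; omega)]
  calc ∑ a ∈ range (n + 1), (A.filter fun p => p.1 = a).card ≤ ∑ a ∈ range (n + 1), B := sum_le_sum fun a _ => h a
    _ = (n + 1) * B := by rw [sum_const, card_range, smul_eq_mul]

theorem fst_card (A : Finset (ℕ × ℕ)) (a : ℕ) : (A.filter fun p => p.1 = a).card = ((A.filter fun p => p.1 = a).image Prod.snd).card := by
  rw [card_image_of_injOn]
  rintro ⟨x, y⟩ h1 ⟨x', y'⟩ h2 h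
  rw [mem_coe, mem_filter] at h1 h2
  simp only at h1 h2 h
  rw [h1.2, h2.2, h]

/-- isolated members -/
theorem big_card {K : ℕ} (hK : 1 ≤ K) :
    ((T s).filter fun p => ∀ δ, 1 ≤ δ → δ ≤ K → (p.1, p.2 + δ) ∉ T s).card ≤ (s.length + 1) * (s.length / K + 1) := by
  apply fib_card
  · rintro ⟨a, l⟩ hp
    rw [mem_filter, mem_T] at hp
    simp only; omega
  · intro a
    rw [fst_card]
    apply sep_card hK
    · intro l hl
      rw [mem_image] at hl
      obtain ⟨⟨a', l'⟩, h1, rfl⟩ := hl
      rw [mem_filter, mem_filter, mem_T] at h1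
      simp only; omega
    · intro l hl l' hl' hlt
      rw [mem_image] at hl hl'
      obtain ⟨⟨a₁, l₁⟩, h1, rfl⟩ := hl
      obtain ⟨⟨a₂, l₂⟩, h2, rfl⟩ := hl'
      rw [mem_filter, mem_filter] at h1 h2
      simp only at *
      by_contra hcon
      apply h1.1.2 (l₂ - l₁) (by omega) (by omega)
      rw [show l₁ + (l₂ - l₁) = l₂ by omega, h1.2, ← h2.2]
      exact h2.1.1

/-- clean windows -/
theorem clean_card {K : ℕ} : ((T s).filter fun p => Clean s K p.1 (p.1 + 2 * p.2)).card ≤ (s.length + 1) * (K * K) := by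
  apply fib_card
  · rintro ⟨a, l⟩ hp
    rw [mem_filter, mem_T] at hp
    simp only; omega
  · intro a
    rw [fst_card]
    have hsub : (((T s).filter fun p => Clean s K p.1 (p.1 + 2 * p.2)).filter fun p => p.1 = a).image Prod.snd ⊆
        (Icc 1 K).biUnion fun δ => (range (s.length + 1)).filter fun l => (a, l) ∈ T s ∧ Pd s a (a + 2 * l) δ := by
      intro l hl
      rw [mem_image] at hl
      obtain ⟨⟨a', l'⟩, h1, rfl⟩ := hl
      rw [mem_filter, mem_filter] at h1
      obtain ⟨⟨h1, δ, h2, h3, h4⟩, h5⟩ := h1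
      simp only at h4 h5
      subst h5
      rw [mem_biUnion]
      refine ⟨δ, mem_Icc.2 ⟨h2, h3⟩, ?_⟩
      rw [mem_filter, mem_range]
      have := mem_T.1 h1
      exact ⟨by simp only; omega, h1, h4⟩
    refine (card_le_card hsub).trans (card_biUnion_le.trans ?_)
    calc ∑ δ ∈ Icc 1 K, ((range (s.length + 1)).filter fun l => (a, l) ∈ T s ∧ Pd s a (a + 2 * l) δ).card ≤ ∑ δ ∈ Icc 1 K, K := by
          apply sum_le_sum
          intro δ hδ
          rw [mem_Icc] at hδ
          refine le_trans (diam_card (δ := δ) ?_) hδ.2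
          intro l hl l' hl'
          rw [mem_filter] at hl hl'
          by_contra hcon
          obtain ⟨-, h1, -⟩ := hl
          obtain ⟨-, h2, h3⟩ := hl'
          rw [mem_T] at h1 h2
          apply h1.2.2.2 (a + δ) (by omega) (by omega)
          unfold Pd at h3
          exact h3.mono (by omega)
      _ = K * K := by rw [sum_const, Nat.card_Icc, smul_eq_mul, Nat.add_sub_cancel]

/-- the other windows -/
theorem rest_card {K : ℕ} :
    ((T s).filter fun p => (∃ δ, 1 ≤ δ ∧ δ ≤ K ∧ (p.1, p.2 + δ) ∈ T s) ∧ ¬ Clean s K p.1 (p.1 + 2 * p.2)).card ≤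
      ∑ l ∈ Icc 1 (s.length / 2), (G s.length (Clean s K) l).card := by
  rw [card_eq_sum_card_fiberwise (f := Prod.snd) (t := Icc 1 (s.length / 2)) (fun p hp => by
    rw [mem_coe, mem_filter] at hp
    have := mem_T.1 hp.1
    rw [mem_coe, mem_Icc]; omega)]
  apply sum_le_sum
  intro l _
  apply card_le_card_of_injOn Prod.fst
  · rintro ⟨a, l'⟩ hp
    rw [mem_coe, mem_filter, mem_filter] at hp
    obtain ⟨⟨h1, ⟨δ, h2, h3, h4⟩, h5⟩, h6⟩ := hp
    simp only at h4 h5 h6
    subst h6
    rw [mem_T] at h1 h4
    obtain ⟨-, hn, g, -⟩ := h1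
    obtain ⟨-, hn', g', -⟩ := h4
    have hR : Weq s (a + l') (a + l' + δ) l' := by
      have e : a + (l' + δ) = a + l' + δ := by ring
      rw [e] at g'
      exact g.symm.trans (g'.mono (by omega))
    rw [mem_coe]
    unfold G
    rw [mem_filter, mem_range]
    refine ⟨by simp only; omega, by simpa using hn, ⟨δ, h2, h3, ?_⟩, ⟨δ, h2, h3, ?_⟩, h5⟩
    · unfold Pd
      simp only
      rcases Nat.lt_or_ge l' δ with h | h
      · rw [show a + l' - a - δ = 0 by omega]
        exact ⟨1, fun t ht => absurd ht (by omega)⟩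
      · have e1 := g.mono (k := a + l' - a - δ) (by omega)
        have e2 := hR.mono (k := a + l' - a - δ) (by omega)
        have e3 := (g.shift (r := δ) (k := a + l' - a - δ) (by omega)).symm
        exact (e1.trans e2).trans e3
    · unfold Pd
      exact hR.mono (by simp only; omega)
  · rintro ⟨a, b⟩ h1 ⟨a', b'⟩ h2 h
    rw [mem_coe, mem_filter] at h1 h2
    simp only at h1 h2 h
    rw [h, h1.2, h2.2]

theorem T_card {K : ℕ} (hK : 1 ≤ K) : ((T s).card : ℝ) ≤ (s.length : ℝ) ^ 2 / 12 + 3 * s.length + 3 +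
    (s.length + 1) * (s.length / K + 1) + (s.length + 1) * K ^ 2 := by
  have hsub : T s ⊆ ((T s).filter fun p => ∀ δ, 1 ≤ δ → δ ≤ K → (p.1, p.2 + δ) ∉ T s) ∪
      ((T s).filter fun p => Clean s K p.1 (p.1 + 2 * p.2)) ∪
      ((T s).filter fun p => (∃ δ, 1 ≤ δ ∧ δ ≤ K ∧ (p.1, p.2 + δ) ∈ T s) ∧ ¬ Clean s K p.1 (p.1 + 2 * p.2)) := by
    intro p hp
    rw [mem_union, mem_union, mem_filter, mem_filter, mem_filter]
    by_cases h1 : ∀ δ, 1 ≤ δ → δ ≤ K → (p.1, p.2 + δ) ∉ T s
    · exact Or.inl (Or.inl ⟨hp, h1⟩)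
    · by_cases h2 : Clean s K p.1 (p.1 + 2 * p.2)
      · exact Or.inl (Or.inr ⟨hp, h2⟩)
      · push Not at h1
        exact Or.inr ⟨hp, h1, h2⟩
  have h1 := (card_le_card hsub).trans ((card_union_le _ _).trans (Nat.add_le_add_right (card_union_le _ _) _))
  have h2 := big_card (s := s) hK
  have h3 := clean_card (s := s) (K := K)
  have h4 := rest_card (s := s) (K := K)
  have h5 := G_sum (n := s.length) (Cl := Clean s K) Clean.mono
  have h6 : (T s).card ≤ (s.length + 1) * (s.length / K + 1) + (s.length + 1) * (K * K) +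
      ∑ l ∈ Icc 1 (s.length / 2), (G s.length (Clean s K) l).card := by omega
  have h7 : ((T s).card : ℝ) ≤ (s.length + 1) * (((s.length / K : ℕ) : ℝ) + 1) + (s.length + 1) * (K * K) +
      ((∑ l ∈ Icc 1 (s.length / 2), (G s.length (Clean s K) l).card : ℕ) : ℝ) := by exact_mod_cast h6
  have h8 : ((s.length / K : ℕ) : ℝ) ≤ (s.length : ℝ) / K := Nat.cast_div_le
  have h9 : (0 : ℝ) ≤ (s.length : ℝ) + 1 := by positivity
  have h10 := mul_le_mul_of_nonneg_left h8 h9
  nlinarith

end

end Pool.Agent.KS6_32.PSQ
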